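import Pool.Agent.GBS.Stmts
import Pool.Agent.Helper26_MVS.COI

/-!
# GBS, row TIM (helper20): differentiation under the integral sign over the slab
-/

noncomputable section

open scoped ContDiff Topology RealInnerProductSpace
open Set MeasureTheory Matrix

namespace Pool.Agent.GBS.H20

open Pool.Agent.RF Pool.Agent.MVS Pool.Agent.GBS

theorem isOpen_Om5 : IsOpen (Om (Fin 5)) := isOpen_ne

theorem isOpen_UZ : IsOpen UZ := isOpen_univ.prod isOpen_Om5

theorem wcont : ContinuousOn (fun x : E5 => (‖x‖ ^ 2)⁻¹) (Om (Fin 5)) := by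
  refine ContinuousOn.inv₀ (by fun_prop) fun x hx => ?_
  have : ‖x‖ ≠ 0 := norm_ne_zero_iff.mpr hx
  positivity

theorem cont_slice {F : Z → ℝ} (hF : ContinuousOn F UZ) (t : ℝ) :
    ContinuousOn (fun x : E5 => F (t, x)) (Om (Fin 5)) :=
  hF.comp (by fun_prop) fun x hx => ⟨mem_univ _, hx⟩

theorem compact_ann : IsCompact {x : E5 | 1 ≤ ‖x‖ ∧ ‖x‖ ≤ Real.exp 1} := by
  have h1 : {x : E5 | 1 ≤ ‖x‖ ∧ ‖x‖ ≤ Real.exp 1} ⊆ Metric.closedBall (0 : E5) (Real.exp 1) := by
    intro x hx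
    rw [mem_closedBall_zero_iff]
    exact hx.2
  refine (isCompact_closedBall (0 : E5) (Real.exp 1)).of_isClosed_subset ?_ h1
  exact (isClosed_le continuous_const continuous_norm).inter
    (isClosed_le continuous_norm continuous_const)

theorem tim : TimStatement := by
  intro F hF
  have hFc : ContinuousOn F UZ := hF.continuousOn
  have hint : ∀ G : Z → ℝ, ContinuousOn G UZ → ∀ t,
      IntegrableOn (fun x => (‖x‖ ^ 2)⁻¹ * G (t, x)) (slab (Fin 5)) := fun G hG t =>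
    Pool.Agent.MVS.H26.integrableOn_slab (Fin 5) (wcont.mul (cont_slice hG t))
  refine ⟨hint F hFc, fun h0 => ?_⟩
  have hfd : ContinuousOn (fderiv ℝ F) UZ :=
    hF.continuousOn_fderiv_of_isOpen isOpen_UZ (by norm_num)
  have hdr : ContinuousOn (dr vt F) UZ := hfd.clm_apply continuousOn_const
  have hder : ∀ t, HasDerivAt (fun s => ∫ x in slab (Fin 5), (‖x‖ ^ 2)⁻¹ * F (s, x))
      (∫ x in slab (Fin 5), (‖x‖ ^ 2)⁻¹ * dr vt F (t, x)) t := by
    intro t
    have hK : IsCompact (Icc (t - 1) (t + 1) ×ˢ {x : E5 | 1 ≤ ‖x‖ ∧ ‖x‖ ≤ Real.exp 1}) :=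
      isCompact_Icc.prod compact_ann
    have hsub : Icc (t - 1) (t + 1) ×ˢ {x : E5 | 1 ≤ ‖x‖ ∧ ‖x‖ ≤ Real.exp 1} ⊆ UZ := by
      rintro ⟨s, x⟩ ⟨_, hx⟩
      refine ⟨mem_univ _, ?_⟩
      intro h
      have h1 : (1 : ℝ) ≤ ‖x‖ := hx.1
      have h2 : x = 0 := h
      rw [h2, norm_zero] at h1
      linarith
    obtain ⟨Cb, hCb⟩ := hK.exists_bound_of_continuousOn (hdr.mono hsub)
    have hss : slab (Fin 5) ⊆ {x : E5 | 1 ≤ ‖x‖ ∧ ‖x‖ ≤ Real.exp 1} :=
      fun x hx => ⟨hx.1.le, hx.2.le⟩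
    have hvol : volume (slab (Fin 5)) < ⊤ :=
      lt_of_le_of_lt (measure_mono hss) compact_ann.measure_lt_top
    have hms : MeasurableSet (slab (Fin 5)) := (Pool.Agent.MVS.H26.isOpen_slab (Fin 5)).measurableSet
    refine (hasDerivAt_integral_of_dominated_loc_of_deriv_le
      (μ := volume.restrict (slab (Fin 5)))
      (F := fun s x => (‖x‖ ^ 2)⁻¹ * F (s, x))
      (F' := fun s x => (‖x‖ ^ 2)⁻¹ * dr vt F (s, x)) (bound := fun _ => |Cb|)
      (s := Icc (t - 1) (t + 1)) (Icc_mem_nhds (by linarith) (by linarith)) ?_ ?_ ?_ ?_ ?_ ?_).2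
    · exact Filter.Eventually.of_forall fun s => (hint F hFc s).aestronglyMeasurable
    · exact hint F hFc t
    · exact (hint _ hdr t).aestronglyMeasurable
    · refine (ae_restrict_iff' hms).mpr (Filter.Eventually.of_forall fun x hx s hs => ?_)
      have hx1 : (1 : ℝ) ≤ ‖x‖ := hx.1.le
      have h1 := hCb (s, x) ⟨hs, hx.1.le, hx.2.le⟩
      rw [norm_mul]
      have h2 : ‖(‖x‖ ^ 2)⁻¹‖ ≤ 1 := by
        rw [norm_inv, norm_pow, norm_norm]
        exact inv_le_one_of_one_le₀ (one_le_pow₀ hx1)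
      calc ‖(‖x‖ ^ 2)⁻¹‖ * ‖dr vt F (s, x)‖ ≤ 1 * |Cb| :=
            mul_le_mul h2 (h1.trans (le_abs_self _)) (norm_nonneg _) zero_le_one
        _ = |Cb| := one_mul _
    · have : IsFiniteMeasure (volume.restrict (slab (Fin 5))) := ⟨by
        rw [Measure.restrict_apply_univ]; exact hvol⟩
      exact integrable_const _
    · refine (ae_restrict_iff' hms).mpr (Filter.Eventually.of_forall fun x hx s _ => ?_)
      have hmem : ((s, x) : Z) ∈ UZ := by
        refine ⟨mem_univ _, ?_⟩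
        exact Pool.Agent.MVS.H26.slab_subset (Fin 5) hx
      have hd : HasFDerivAt F (fderiv ℝ F (s, x)) (s, x) :=
        ((hF.contDiffAt (isOpen_UZ.mem_nhds hmem)).differentiableAt (by norm_num)).hasFDerivAt
      have hg : HasDerivAt (fun r : ℝ => ((r, x) : Z)) vt s := by
        have := (hasDerivAt_id s).prodMk (hasDerivAt_const s x)
        exact this
      have h1 : HasDerivAt (fun r : ℝ => F (r, x)) (fderiv ℝ F (s, x) vt) s :=
        hd.comp_hasDerivAt s hg
      exact h1.const_mul _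
  intro t s
  have h1 : ∀ t, deriv (fun s => ∫ x in slab (Fin 5), (‖x‖ ^ 2)⁻¹ * F (s, x)) t = 0 := fun t => by
    rw [(hder t).deriv, h0 t]
  exact is_const_of_deriv_eq_zero (fun t => (hder t).differentiableAt) h1 t s

end Pool.Agent.GBS.H20
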